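import Pool.Agent.Lib.MP_6a1159_al.Mg.G018

/-! The relative inequality in genus two. -/

set_option autoImplicit false

namespace Pool.Agent.Lib.MP_6a1159_al

section gen

variable {κ : Type} [DecidableEq κ] (L0 : List κ)

/-- The twist about the curve `b_i`. -/
noncomputable def tB (i : Option κ) : AutPlus (BL L0) := toAut (BL L0) ⟨twE' i, twE'_mem i _⟩

theorem tB_b (i j : Option κ) : (tB L0 i).1 (gb _ j) = gb _ j := by
  show (toAut (BL L0) ⟨twE' i, twE'_mem i _⟩).1 (proj _ (fb j)) = proj _ (fb j)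
  rw [toAut_proj]
  show proj _ (twFree' i 1 (fb j)) = _
  rw [twFree'_b]

theorem tB_a (i : Option κ) : (tB L0 i).1 (ga _ i) = ga _ i * (gb _ i)⁻¹ := by
  show (toAut (BL L0) ⟨twE' i, twE'_mem i _⟩).1 (proj _ (fa i)) = proj _ (fa i) * (proj _ (fb i))⁻¹
  rw [toAut_proj]
  show proj _ (twFree' i 1 (fa i)) = _
  rw [twFree'_a, zpow_neg, zpow_one, map_mul, map_inv]

theorem tB_a_ne (i j : Option κ) (h : j ≠ i) : (tB L0 i).1 (ga _ j) = ga _ j := by
  show (toAut (BL L0) ⟨twE' i, twE'_mem i _⟩).1 (proj _ (fa j)) = proj _ (fa j)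
  rw [toAut_proj]
  show proj _ (twFree' i 1 (fa j)) = _
  rw [twFree'_a_ne i j 1 h]

theorem tA_a (i j : Option κ) : (twist (BL L0) i).1 (ga _ j) = ga _ j := twAut_a _ _ _

theorem tA_b (i : Option κ) : (twist (BL L0) i).1 (gb _ i) = gb _ i * ga _ i := twAut_b _ _

theorem tA_b_ne (i j : Option κ) (h : j ≠ i) : (twist (BL L0) i).1 (gb _ j) = gb _ j :=
  twAut_b_ne _ _ _ h

theorem tB_PA (i : κ) : tB L0 (some i) ∈ PA L0 := by
  have h3 : ∀ w v, v = (tB L0 (some i)).1 w → (tB L0 (some i)).1⁻¹ v = w := by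
    intro w v hw
    rw [MulAut.inv_apply, MulEquiv.symm_apply_eq]
    exact hw
  have hb := tB_b L0 (some i)
  apply mem_PA_of
  · intro j
    by_cases hj : j = i
    · subst hj
      rw [tB_a]
      exact Subgroup.mul_mem _ (ga_mem L0 j) (Subgroup.inv_mem _ (gb_mem L0 j))
    · rw [tB_a_ne _ _ _ (by simpa using hj)]; exact ga_mem L0 j
  · intro j; rw [hb]; exact gb_mem L0 j
  · intro j
    by_cases hj : j = i
    · subst hj
      rw [h3 (ga _ (some j) * gb _ (some j)) _ (by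
        rw [map_mul, hb, tB_a, inv_mul_cancel_right])]
      exact Subgroup.mul_mem _ (ga_mem L0 j) (gb_mem L0 j)
    · rw [h3 _ _ (tB_a_ne _ _ _ (by simpa using hj)).symm]; exact ga_mem L0 j
  · intro j; rw [h3 _ _ (hb _).symm]; exact gb_mem L0 j

theorem braid_t (i : Option κ) : twist (BL L0) i * tB L0 i * twist (BL L0) i =
    tB L0 i * twist (BL L0) i * tB L0 i := by
  apply autPlus_ext
  · intro j
    show (twist (BL L0) i).1 ((tB L0 i).1 ((twist (BL L0) i).1 (ga _ j))) =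
      (tB L0 i).1 ((twist (BL L0) i).1 ((tB L0 i).1 (ga _ j)))
    by_cases h : j = i
    · subst h
      simp only [tA_a, tA_b, tB_a, tB_b, map_mul, map_inv]
      group
    · simp only [tA_a, tB_a_ne L0 i j h]
  · intro j
    show (twist (BL L0) i).1 ((tB L0 i).1 ((twist (BL L0) i).1 (gb _ j))) =
      (tB L0 i).1 ((twist (BL L0) i).1 ((tB L0 i).1 (gb _ j)))
    by_cases h : j = i
    · subst h
      simp only [tA_a, tA_b, tB_a, tB_b, map_mul, map_inv]
      group
    · simp only [tB_b, tA_b_ne L0 i j h]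

theorem comm_tAB (i j : Option κ) (h : i ≠ j) : Commute (twist (BL L0) i) (tB L0 j) := by
  have h1 : Commute (⟨twE i, twE_mem i _⟩ : StR (BL L0)) ⟨twE' j, twE'_mem j _⟩ :=
    Subtype.ext (twE'_comm_twE j i h.symm).symm
  have h2 := h1.map (toAut (BL L0))
  rw [toAut_twE] at h2
  exact h2

theorem comm_tBB (i j : Option κ) (h : i ≠ j) : Commute (tB L0 i) (tB L0 j) := by
  apply autPlus_ext
  · intro l
    show (tB L0 i).1 ((tB L0 j).1 (ga _ l)) = (tB L0 j).1 ((tB L0 i).1 (ga _ l))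
    by_cases hi : l = i
    · subst hi
      simp only [tB_a, tB_b, tB_a_ne L0 j l h, map_mul, map_inv]
    · by_cases hj : l = j
      · subst hj
        simp only [tB_a, tB_b, tB_a_ne L0 i l hi, map_mul, map_inv]
      · simp only [tB_a_ne L0 i l hi, tB_a_ne L0 j l hj]
  · intro l
    show (tB L0 i).1 ((tB L0 j).1 (gb _ l)) = (tB L0 j).1 ((tB L0 i).1 (gb _ l))
    simp only [tB_b]

/-- The half twist. -/
noncomputable def Dt (i : Option κ) : AutPlus (BL L0) :=
  twist (BL L0) i * tB L0 i * twist (BL L0) i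

theorem Dt_a (i : Option κ) : (Dt L0 i).1 (ga _ i) = (gb _ i)⁻¹ := by
  show (twist (BL L0) i).1 ((tB L0 i).1 ((twist (BL L0) i).1 (ga _ i))) = _
  simp only [tA_a, tA_b, tB_a, map_mul, map_inv]
  group

theorem Dt_b (i : Option κ) : (Dt L0 i).1 (gb _ i) = gb _ i * ga _ i * (gb _ i)⁻¹ := by
  show (twist (BL L0) i).1 ((tB L0 i).1 ((twist (BL L0) i).1 (gb _ i))) = _
  simp only [tA_a, tA_b, tB_a, tB_b, map_mul, map_inv]
  group

theorem Dt_a_ne (i j : Option κ) (h : j ≠ i) : (Dt L0 i).1 (ga _ j) = ga _ j := by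
  show (twist (BL L0) i).1 ((tB L0 i).1 ((twist (BL L0) i).1 (ga _ j))) = _
  simp only [tA_a, tB_a_ne L0 i j h]

theorem Dt_b_ne (i j : Option κ) (h : j ≠ i) : (Dt L0 i).1 (gb _ j) = gb _ j := by
  show (twist (BL L0) i).1 ((tB L0 i).1 ((twist (BL L0) i).1 (gb _ j))) = _
  simp only [tB_b, tA_b_ne L0 i j h]

/-- The commutator of `a_i` and `b_i`. -/
def cw (i : Option κ) : SG (BL L0) :=
  ga (BL L0) i * gb (BL L0) i * (ga (BL L0) i)⁻¹ * (gb (BL L0) i)⁻¹

theorem Dt4 (i : Option κ) (w : SG (BL L0)) :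
    (Dt L0 i ^ 4).1 w = (Dt L0 i).1 ((Dt L0 i).1 ((Dt L0 i).1 ((Dt L0 i).1 w))) := by
  have e : Dt L0 i ^ 4 = Dt L0 i * (Dt L0 i * (Dt L0 i * Dt L0 i)) := by
    simp only [pow_succ, pow_zero, one_mul, mul_assoc]
  rw [e]
  rfl

theorem Dt4_a (i : Option κ) : (Dt L0 i ^ 4).1 (ga _ i) = (cw L0 i)⁻¹ * ga _ i * cw L0 i := by
  rw [Dt4]
  simp only [Dt_a, Dt_b, map_mul, map_inv, cw]
  group

theorem Dt4_b (i : Option κ) : (Dt L0 i ^ 4).1 (gb _ i) = (cw L0 i)⁻¹ * gb _ i * cw L0 i := by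
  rw [Dt4]
  simp only [Dt_a, Dt_b, map_mul, map_inv, cw]
  group

theorem Dt4_a_ne (i j : Option κ) (h : j ≠ i) : (Dt L0 i ^ 4).1 (ga _ j) = ga _ j := by
  rw [Dt4]
  simp only [Dt_a_ne L0 i j h]

theorem Dt4_b_ne (i j : Option κ) (h : j ≠ i) : (Dt L0 i ^ 4).1 (gb _ j) = gb _ j := by
  rw [Dt4]
  simp only [Dt_b_ne L0 i j h]

end gen

/-- The list with one element. -/
abbrev LU : List Unit := [()]

theorem cw_rel : cw LU none * cw LU (some ()) = 1 := by
  have h : relator (BL LU) = (fa none * fb none * (fa none)⁻¹ * (fb none)⁻¹) *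
      (fa (some ()) * fb (some ()) * (fa (some ()))⁻¹ * (fb (some ()))⁻¹) := by
    simp [relator, BL]
  have h1 : proj (BL LU) (relator (BL LU)) = 1 :=
    PresentedGroup.one_of_mem (Set.mem_singleton _)
  have h2 : proj (BL LU) ((fa none * fb none * (fa none)⁻¹ * (fb none)⁻¹) *
      (fa (some ()) * fb (some ()) * (fa (some ()))⁻¹ * (fb (some ()))⁻¹)) = 1 :=
    (congrArg (proj (BL LU)) h).symm.trans h1
  simpa only [cw, ga, gb, map_mul, map_inv] using h2

theorem Dt4_eq : Dt LU (some ()) ^ 4 = Dt LU none ^ 4 *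
    ⟨MulAut.conj (cw LU none), conj_mem _ _⟩ := by
  have hrel := cw_rel
  have hw : cw LU (some ()) = (cw LU none)⁻¹ := (inv_eq_of_mul_eq_one_right hrel).symm
  have hc : (Dt LU none ^ 4).1 (cw LU none) = cw LU none := by
    have h1 : cw LU none = ga (BL LU) none * gb (BL LU) none * (ga (BL LU) none)⁻¹ *
        (gb (BL LU) none)⁻¹ := rfl
    conv_lhs => rw [h1]
    rw [map_mul, map_mul, map_mul, map_inv, map_inv, Dt4_a, Dt4_b]
    have h2 : ∀ a b w : SG (BL LU), w⁻¹ * a * w * (w⁻¹ * b * w) * (w⁻¹ * a * w)⁻¹ *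
        (w⁻¹ * b * w)⁻¹ = w⁻¹ * (a * b * a⁻¹ * b⁻¹) * w := by
      intro a b w
      group
    rw [h2, ← h1]
    group
  apply autPlus_ext
  · intro j
    show (Dt LU (some ()) ^ 4).1 (ga _ j) =
      (Dt LU none ^ 4).1 (MulAut.conj (cw LU none) (ga _ j))
    rw [MulAut.conj_apply, map_mul, map_mul, map_inv, hc]
    rcases j with _ | ⟨⟩
    · rw [Dt4_a, Dt4_a_ne _ _ _ (by simp)]
      group
    · rw [Dt4_a, Dt4_a_ne _ _ _ (by simp), hw, inv_inv]
  · intro j
    show (Dt LU (some ()) ^ 4).1 (gb _ j) =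
      (Dt LU none ^ 4).1 (MulAut.conj (cw LU none) (gb _ j))
    rw [MulAut.conj_apply, map_mul, map_mul, map_inv, hc]
    rcases j with _ | ⟨⟩
    · rw [Dt4_b, Dt4_b_ne _ _ _ (by simp)]
      group
    · rw [Dt4_b, Dt4_b_ne _ _ _ (by simp), hw, inv_inv]

/-- The relative inequality in genus two. -/
theorem base_ipc (N : ℕ) : IsProdComm (N + 4) (zP LU ^ (12 * N)) := by
  let A0 : PA LU := ⟨twist (BL LU) none, twist_none_PA LU⟩
  let B0 : PA LU := ⟨tB LU none, twB_PA LU⟩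
  let A1 : PA LU := ⟨twist (BL LU) (some ()), twist_some_PA LU ()⟩
  let B1 : PA LU := ⟨tB LU (some ()), tB_PA LU ()⟩
  have h0 : A0 * B0 * A0 = B0 * A0 * B0 := Subtype.ext (braid_t LU none)
  have h1 : A1 * B1 * A1 = B1 * A1 * B1 := Subtype.ext (braid_t LU (some ()))
  have cAA : Commute A0 A1 := Subtype.ext (twist_comm _ _ _)
  have cAB : Commute A0 B1 := Subtype.ext (comm_tAB LU none (some ()) (by simp))
  have cBA : Commute B0 A1 := Subtype.ext (comm_tAB LU (some ()) none (by simp)).symm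
  have cBB : Commute B0 B1 := Subtype.ext (comm_tBB LU none (some ()) (by simp))
  have hD : piP LU ((A0 * B0 * A0) ^ 4) = piP LU ((A1 * B1 * A1) ^ 4) := by
    apply Subtype.ext
    show (QuotientGroup.mk (Dt LU none ^ 4) : Mod (BL LU)) =
      QuotientGroup.mk (Dt LU (some ()) ^ 4)
    rw [Dt4_eq, QuotientGroup.mk_mul]
    have h2 : (QuotientGroup.mk (⟨MulAut.conj (cw LU none), conj_mem _ _⟩ : AutPlus (BL LU)) :
        Mod (BL LU)) = 1 := by
      rw [QuotientGroup.eq_one_iff]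
      exact ⟨cw LU none, rfl⟩
    rw [h2, mul_one]
  have h := abs_base (A0 := piP LU A0) (B0 := piP LU B0) (A1 := piP LU A1) (B1 := piP LU B1)
    (by rw [← map_mul, ← map_mul, ← map_mul, ← map_mul, h0])
    (by rw [← map_mul, ← map_mul, ← map_mul, ← map_mul, h1])
    (cAA.map _) (cAB.map _) (cBA.map _) (cBB.map _)
    (by rw [← map_mul, ← map_mul, ← map_pow, ← map_mul, ← map_mul, ← map_pow, hD]) N
  have e : piP LU A0 * (piP LU A1)⁻¹ = zP LU := by
    rw [← map_inv, ← map_mul]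
    have hHT : HT LU = twist (BL LU) (some ()) := by
      unfold HT
      simp
    have h2 : A0 * A1⁻¹ = ⟨zA LU, zA_PA LU⟩ := by
      apply Subtype.ext
      show twist (BL LU) none * (twist (BL LU) (some ()))⁻¹ = zA LU
      unfold zA
      rw [hHT]
    exact congrArg (piP LU) h2
  rw [e] at h
  exact h

end Pool.Agent.Lib.MP_6a1159_al
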