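import Pool.Agent.Lib.MP_6a1159_al.UC.K8

/-! The relative inequality in all genera, and the bound. -/

set_option autoImplicit false

open scoped ENNReal

namespace Pool.Agent.Lib.MP_6a1159_al

/-- The relative inequality: the stable commutator length of the chain, in the group of the mapping
classes which preserve the handles, is at most `1 / 12`. -/
def QQ {κ : Type} [DecidableEq κ] (L0 : List κ) : Prop :=
  ∀ A : ℕ, 1 ≤ A → ∃ n k : ℕ, 1 ≤ n ∧ A * k ≤ (A + 1) * n ∧ IsProdComm k (zP L0 ^ (12 * n))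

theorem QQ_base : QQ LU := fun A hA =>
  ⟨4 * A, 4 * A + 4, by omega, le_of_eq (by ring), base_ipc (4 * A)⟩

theorem QQ_step {κ : Type} [DecidableEq κ] (p : ℕ) [Fact p.Prime] (L0 : List κ) (hn : L0.Nodup)
    (hc : ∀ k, k ∈ L0) (h : QQ L0) : QQ (CL p L0) := by
  intro A hA
  obtain ⟨n, k, hn1, hk, hi⟩ := h (2 * A) (by omega)
  have h1 := transferP p L0 hn hc (12 * n) k hi (4 * A)
  have hp : 2 ≤ p := (Fact.out : p.Prime).two_le
  have hpp : 4 ≤ p * p := by nlinarith
  have hu : 1 ≤ p * p - 1 := by omega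
  have e : 12 * n * p * p * (4 * A) * (p * p - 1) = 12 * (n * p * p * (4 * A) * (p * p - 1)) := by
    ring
  rw [e] at h1
  refine ⟨n * p * p * (4 * A) * (p * p - 1), 2 * (p * p - p) + (p * p - 1) *
    (p * p * k * (4 * A)), ?_, ?_, h1⟩
  · have : 0 < n * p * p * (4 * A) * (p * p - 1) := by
      have : 0 < p * p - 1 := hu
      positivity
    exact this
  · have hv : p * p - p ≤ p * p := Nat.sub_le _ _
    generalize p * p - p = v at *
    generalize p * p - 1 = u at *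
    obtain ⟨q, hq⟩ : ∃ q, q = p * p := ⟨_, rfl⟩
    have e1 : n * p * p * (4 * A) * u = n * q * (4 * A) * u := by rw [hq]; ring
    rw [e1, ← hq]
    rw [← hq] at hv
    have h2 : v ≤ u * q * n := by
      calc v ≤ q := hv
        _ = 1 * q * 1 := by ring
        _ ≤ u * q * n := by gcongr
    have h3 : 4 * A * v ≤ 4 * A * (u * q * n) := Nat.mul_le_mul_left _ h2
    have h4 : u * q * (4 * A) * (2 * A * k) ≤ u * q * (4 * A) * ((2 * A + 1) * n) :=
      Nat.mul_le_mul_left _ hk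
    have h5 : 2 * (A * (2 * v + u * (q * k * (4 * A)))) =
        4 * A * v + u * q * (4 * A) * (2 * A * k) := by ring
    have h6 : 2 * ((A + 1) * (n * q * (4 * A) * u)) =
        4 * A * (u * q * n) + u * q * (4 * A) * ((2 * A + 1) * n) := by ring
    omega

theorem exists_L (N : ℕ) (hN : 1 ≤ N) : ∃ (κ : Type) (_ : DecidableEq κ) (L0 : List κ),
    L0.Nodup ∧ (∀ k, k ∈ L0) ∧ L0.length = N ∧ QQ L0 := by
  induction N using Nat.strong_induction_on with
  | _ N ih =>
    rcases Nat.lt_or_ge 1 N with h1 | h1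
    · have hp : N.minFac.Prime := Nat.minFac_prime (by omega)
      obtain ⟨M, hM⟩ := Nat.minFac_dvd N
      have hM1 : 1 ≤ M := by
        rcases Nat.eq_zero_or_pos M with h | h
        · rw [h, mul_zero] at hM
          omega
        · exact h
      have hMN : M < N := by
        calc M = 1 * M := (one_mul M).symm
          _ < N.minFac * M := Nat.mul_lt_mul_of_pos_right hp.one_lt hM1
          _ = N := hM.symm
      obtain ⟨κ, hκ, L0, a1, a2, a3, a4⟩ := ih M hMN hM1
      have : Fact N.minFac.Prime := ⟨hp⟩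
      refine ⟨Fin N.minFac × κ, inferInstance, CL N.minFac L0, CL_nodup _ L0 a1,
        CL_mem _ L0 a2, ?_, QQ_step _ L0 a1 a2 a4⟩
      rw [CL_length, a3, ← hM]
    · have : N = 1 := by omega
      subst this
      exact ⟨Unit, inferInstance, LU, by simp, by simp, rfl, QQ_base⟩

theorem fin_ipc {κ : Type} [DecidableEq κ] (L0 : List κ) (hn : L0.Nodup) (M n k : ℕ)
    (hM : L0.length = M + 1) (h : IsProdComm k (zP L0 ^ (12 * n))) (j : ℕ) :
    IsProdComm (k * j + (M + 1)) (tw (BL L0) none ^ (12 * M * n * j)) := by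
  obtain ⟨m, hm⟩ : ∃ m, m = 12 * n * j := ⟨_, rfl⟩
  have h1 := ipc_pow (ipc_map (PMs L0).subtype h) j
  rw [← map_pow, ← pow_mul, ← hm, zP_pow, map_mul, map_inv, map_pow, map_pow] at h1
  have h2 : (PMs L0).subtype (T0 L0) = tw (BL L0) none := rfl
  have h3 : (PMs L0).subtype (HP L0) ^ m =
      (L0.map fun i => tw (BL L0) (some i) ^ m).prod := by
    have e1 : (PMs L0).subtype (HP L0) ^ m = (QuotientGroup.mk' (Inn (BL L0))) (HT L0 ^ m) := by
      rw [map_pow]
      rfl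
    rw [e1, HT_pow, map_list_prod, List.map_map, List.map_map]
    rfl
  rw [h2, h3] at h1
  have h4 : Near (L0.length * 1) (L0.map fun i => tw (BL L0) (some i) ^ m).prod
      ((tw (BL L0) none ^ m) ^ L0.length) :=
    near_list L0 _ _ 1 fun i hi => near_pow (tw_some_conj L0 hn i hi) m
  have h5 := near_ipc h1 (near_mul (near_refl (tw (BL L0) none ^ m)) (near_inv h4))
  have h6 := ipc_inv h5
  have e2 : (tw (BL L0) none ^ m * ((tw (BL L0) none ^ m) ^ L0.length)⁻¹)⁻¹ =
      tw (BL L0) none ^ (12 * M * n * j) := by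
    rw [hM, pow_succ, mul_inv_rev, inv_inv, mul_inv_cancel_right, ← pow_mul, hm]
    congr 1
    ring
  rw [e2] at h6
  refine ipc_mono ?_ h6
  rw [hM]
  apply le_of_eq
  ring

/-- `φ(g, 0) ≤ 1 / (12 (g - 2))`. -/
theorem phi_le12 (g : ℕ) (hg : 3 ≤ g) (i : Fin g) :
    phi g i ≤ 1 / (12 * ((g - 2 : ℕ) : ℝ≥0∞)) := by
  obtain ⟨M, rfl⟩ : ∃ M, g = M + 2 := ⟨g - 2, by omega⟩
  have hM1 : 1 ≤ M := by omega
  obtain ⟨κ, _, L0, hn, hc, hlen, hQ⟩ := exists_L (M + 1) (by omega)
  rw [phi_eq, phi0_eq L0 hn hc (M + 2) (by omega) i, Nat.add_sub_cancel]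
  set s := scl (tw (BL L0) none) with hs
  have key : ∀ A : ℕ, 1 ≤ A → ((12 * M * A : ℕ) : ℝ≥0∞) * s ≤ ((A + 1 : ℕ) : ℝ≥0∞) := by
    intro A hA
    obtain ⟨n, k, hn1, hk, hi⟩ := hQ A hA
    have h1 := c8_bound (tw (BL L0) none) 1 (12 * M) 1 n k (M + 1) le_rfl (by positivity) hn1
      (fun j _ => by
        have h2 := fin_ipc L0 hn M n k hlen hi j
        have e1 : 1 * 1 * k * j + (M + 1) = k * j + (M + 1) := by ring
        have e2 : 1 * (12 * M) * n * j = 12 * M * n * j := by ring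
        rw [e1, e2]
        exact h2)
    rw [← hs, Nat.cast_one, one_mul] at h1
    have h3 : ((12 * M * A : ℕ) : ℝ≥0∞) * s * n ≤ ((A + 1 : ℕ) : ℝ≥0∞) * n := by
      calc ((12 * M * A : ℕ) : ℝ≥0∞) * s * n = (A : ℝ≥0∞) * (((12 * M : ℕ) : ℝ≥0∞) * n * s) := by
            push_cast; ring
        _ ≤ (A : ℝ≥0∞) * k := by gcongr
        _ = ((A * k : ℕ) : ℝ≥0∞) := by push_cast; ring
        _ ≤ (((A + 1) * n : ℕ) : ℝ≥0∞) := by exact_mod_cast hk
        _ = _ := by push_cast; ring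
    have hn0 : (n : ℝ≥0∞) ≠ 0 := by
      have : n ≠ 0 := by omega
      exact_mod_cast this
    exact (ENNReal.mul_le_mul_iff_left hn0 (ENNReal.natCast_ne_top n)).1 h3
  have hfin : s ≠ ∞ := by
    intro h
    have h1 := key 1 le_rfl
    rw [h, ENNReal.mul_top] at h1
    · exact absurd (top_le_iff.1 h1) (ENNReal.natCast_ne_top _)
    · have : 12 * M * 1 ≠ 0 := by omega
      exact_mod_cast this
  have hM0 : (M : ℝ≥0∞) ≠ 0 := by
    have : M ≠ 0 := by omega
    exact_mod_cast this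
  rw [ENNReal.le_div_iff_mul_le (Or.inl (mul_ne_zero (by norm_num) hM0))
    (Or.inl (ENNReal.mul_ne_top (by norm_num) (ENNReal.natCast_ne_top M)))]
  obtain ⟨r, hr⟩ : ∃ r : ℝ, r = s.toReal := ⟨_, rfl⟩
  have hr0 : 0 ≤ r := by rw [hr]; exact ENNReal.toReal_nonneg
  have hsr : s = ENNReal.ofReal r := by rw [hr, ENNReal.ofReal_toReal hfin]
  have hreal : ∀ A : ℕ, 1 ≤ A → 12 * (M : ℝ) * A * r ≤ A + 1 := by
    intro A hA
    have h1 := key A hA
    rw [hsr, ← ENNReal.ofReal_natCast, ← ENNReal.ofReal_natCast, ← ENNReal.ofReal_mul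
      (Nat.cast_nonneg _)] at h1
    have h2 := (ENNReal.ofReal_le_ofReal_iff (Nat.cast_nonneg _)).1 h1
    push_cast at h2
    exact h2
  have hle : r * (12 * (M : ℝ)) ≤ 1 := by
    by_contra hcon
    push Not at hcon
    obtain ⟨A, hA⟩ := exists_nat_gt (1 / (r * (12 * (M : ℝ)) - 1))
    have hd : 0 < r * (12 * (M : ℝ)) - 1 := by linarith
    have hA0 : (0 : ℝ) < A := lt_trans (by positivity) hA
    have hA1 : 1 ≤ A := by
      have : 0 < A := by exact_mod_cast hA0
      exact this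
    have h1 := hreal A hA1
    rw [div_lt_iff₀ hd] at hA
    nlinarith
  rw [hsr]
  calc ENNReal.ofReal r * (12 * (M : ℝ≥0∞)) = ENNReal.ofReal (r * (12 * (M : ℝ))) := by
        rw [ENNReal.ofReal_mul hr0, ENNReal.ofReal_mul (by norm_num), ENNReal.ofReal_natCast,
          ENNReal.ofReal_ofNat]
    _ ≤ ENNReal.ofReal 1 := ENNReal.ofReal_le_ofReal hle
    _ = 1 := ENNReal.ofReal_one

end Pool.Agent.Lib.MP_6a1159_al
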